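import Pool.Agent.Helper69.GU.Defs

/-! # RNKU: reduced words are of rank one modulo `(X + ρ⁻²)^j`, and do not vanish at `X = ρ⁻²` -/

set_option autoImplicit false

namespace Pool.Agent.Helper69.GU

open Polynomial
open Pool.Agent.Helper51.GT (Mat PMat fr Dat dg Zm Fil Cir flp Red gprod Zp Filp Circ tr4)

section

variable {K : Type} [Field K] {φ : K ≃+* K} {ρ : K}

theorem rnku_eval_pi (two : (2 : K) = 0) (L : K) : (X + C L : K[X]).eval L = 0 := by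
  rw [eval_add, eval_C, eval_X, ← two_mul, two, zero_mul]

theorem rnku_dvd (two : (2 : K) = 0) (L : K) {f : K[X]} (h : f.eval L = 0) :
    (X + C L : K[X]) ∣ f := by
  have h1 : (X - C L) ∣ f := dvd_iff_isRoot.2 h
  have h2 : (X + C L : K[X]) = X - C L := by
    have h4 : (C L : K[X]) + C L = 0 := by
      rw [← C_add, ← two_mul, two, zero_mul, C_0]
    linear_combination h4
  rw [h2]
  exact h1

/-- the decomposition of one letter -/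
theorem rnku_letter (hEV : ST_EVU) (h : Dat φ) (hρ : Rho φ ρ) (a : K × K) {b : K × K}
    (hb : b ∈ XU φ ρ) :
    ∃ (T : Mat K) (m : K), m ≠ 0 ∧ ∀ r c : Fin 4, (th φ ρ a * ad φ ρ b) r c =
      C (gv φ ρ a b r) * C (m * lv φ ρ b c) + (X + C (ρ⁻¹ ^ 2)) * T r c := by
  obtain ⟨m, hm, hm2⟩ := hEV K φ ρ h hρ b hb
  have h1 : ∀ r c : Fin 4, ∃ t : K[X], (th φ ρ a * ad φ ρ b) r c =
      C (gv φ ρ a b r) * C (m * lv φ ρ b c) + (X + C (ρ⁻¹ ^ 2)) * t := by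
    intro r c
    have h2 : ((th φ ρ a * ad φ ρ b) r c -
        C (gv φ ρ a b r) * C (m * lv φ ρ b c)).eval (ρ⁻¹ ^ 2) = 0 := by
      rw [eval_sub, eval_mul, eval_C, eval_C, hm2 a r c]
      ring
    obtain ⟨t, ht⟩ := rnku_dvd h.two _ h2
    exact ⟨t, by rw [← ht]; ring⟩
  choose T hT using h1
  exact ⟨Matrix.of T, m, hm, fun r c => hT r c⟩

theorem rnku_word (hEV : ST_EVU) (hPAIR : ST_PAIRU) (hND : ST_NDU) (h : Dat φ) (hρ : Rho φ ρ)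
    {a b : ℕ → K × K} (ha : ∀ i, a i ∈ XU φ ρ) (hb : ∀ i, b i ∈ XU φ ρ) (j : ℕ)
    (hr : Red a b (j + 1)) :
    ∃ (u v : Fin 4 → K[X]) (S : Mat K) (k : K), k ≠ 0 ∧
      (∀ r c : Fin 4, wd φ ρ a b (j + 1) r c =
        u r * v c + (X + C (ρ⁻¹ ^ 2) : K[X]) ^ (j + 1) * S r c) ∧
      (∃ r, (u r).eval (ρ⁻¹ ^ 2) ≠ 0) ∧
      ∀ s : Fin 4, (v s).eval (ρ⁻¹ ^ 2) = k * lv φ ρ (b j) s := by
  induction j with
  | zero =>
    obtain ⟨T, m, hm, hT⟩ := rnku_letter hEV h hρ (a 0) (hb 0)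
    refine ⟨fun r => C (gv φ ρ (a 0) (b 0) r),
      fun s => C (m * lv φ ρ (b 0) s), T, m, hm, ?_, ?_, ?_⟩
    · intro r c
      have e : wd φ ρ a b (0 + 1) = th φ ρ (a 0) * ad φ ρ (b 0) := by
        show (1 : Mat K) * (th φ ρ (a 0) * ad φ ρ (b 0)) = th φ ρ (a 0) * ad φ ρ (b 0)
        rw [one_mul]
      rw [e, hT r c, zero_add, pow_one]
    · by_contra hcon
      push Not at hcon
      obtain ⟨k, hk, hk2⟩ := hPAIR K φ ρ h hρ (a 0) (ha 0)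
      have h1 := hk2 (b 0) (hb 0) (b 0) (hb 0)
      have h2 : ∀ r, gv φ ρ (a 0) (b 0) r = 0 := fun r => by
        have := hcon r
        rwa [eval_C] at this
      have h3 : ∑ s : Fin 4, lv φ ρ (b 0) s * gv φ ρ (a 0) (b 0) s = 0 :=
        Finset.sum_eq_zero fun s _ => by rw [h2 s, mul_zero]
      rw [h3] at h1
      have hab : a 0 ≠ b 0 := hr.1 0 (by omega)
      exact mul_ne_zero hk (mul_ne_zero (hND K φ ρ h hρ (a 0) (ha 0) (b 0) (hb 0) hab)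
        (hND K φ ρ h hρ (b 0) (hb 0) (a 0) (ha 0) (Ne.symm hab))) h1.symm
    · intro s
      rw [eval_C]
  | succ j ih =>
    obtain ⟨u, v, S, k, hk, hw, ⟨r0, hu⟩, hv⟩ :=
      ih ⟨fun i hi => hr.1 i (by omega), fun i hi => hr.2 i (by omega)⟩
    obtain ⟨T, m, hm, hT⟩ := rnku_letter hEV h hρ (a (j + 1)) (hb (j + 1))
    obtain ⟨kp, hkp, hkp2⟩ := hPAIR K φ ρ h hρ (a (j + 1)) (ha (j + 1))
    set g : Fin 4 → K[X] := fun r => C (gv φ ρ (a (j + 1)) (b (j + 1)) r) with hg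
    set e : Fin 4 → K[X] := fun s => C (m * lv φ ρ (b (j + 1)) s) with he
    set c0 : K := k * ∑ s : Fin 4, lv φ ρ (b j) s * gv φ ρ (a (j + 1)) (b (j + 1)) s with hc0
    have hc0ne : c0 ≠ 0 := by
      rw [hc0, hkp2 (b j) (hb j) (b (j + 1)) (hb (j + 1))]
      refine mul_ne_zero hk (mul_ne_zero hkp (mul_ne_zero ?_ ?_))
      · exact hND K φ ρ h hρ (a (j + 1)) (ha _) (b j) (hb _) (fun hh => hr.2 j (by omega) hh.symm)
      · exact hND K φ ρ h hρ (b (j + 1)) (hb _) (a (j + 1)) (ha _)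
          (fun hh => hr.1 (j + 1) (by omega) hh.symm)
    have hvg : ((v 0 * g 0 + v 1 * g 1 + v 2 * g 2 + v 3 * g 3) - C c0).eval (ρ⁻¹ ^ 2) = 0 := by
      simp only [eval_sub, eval_add, eval_mul, eval_C, hv, hg]
      rw [hc0, Fin.sum_univ_four]
      ring
    obtain ⟨q, hq⟩ := rnku_dvd h.two _ hvg
    have hcc : C c0 * C c0⁻¹ = (1 : K[X]) := by
      rw [← C_mul, mul_inv_cancel₀ hc0ne, C_1]
    refine ⟨fun r => u r + (X + C (ρ⁻¹ ^ 2)) ^ (j + 1) * (C c0⁻¹ * (S r 0 * g 0 + S r 1 * g 1 +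
        S r 2 * g 2 + S r 3 * g 3)),
      fun c => (v 0 * g 0 + v 1 * g 1 + v 2 * g 2 + v 3 * g 3) * e c +
        (X + C (ρ⁻¹ ^ 2)) * (v 0 * T 0 c + v 1 * T 1 c + v 2 * T 2 c + v 3 * T 3 c),
      Matrix.of fun r c => (S r 0 * T 0 c + S r 1 * T 1 c + S r 2 * T 2 c + S r 3 * T 3 c) -
        C c0⁻¹ * (S r 0 * g 0 + S r 1 * g 1 + S r 2 * g 2 + S r 3 * g 3) *
          (q * e c + (v 0 * T 0 c + v 1 * T 1 c + v 2 * T 2 c + v 3 * T 3 c)),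
      c0 * m, mul_ne_zero hc0ne hm, ?_, ⟨r0, ?_⟩, ?_⟩
    · intro r c
      have e' : wd φ ρ a b (j + 1 + 1) =
          wd φ ρ a b (j + 1) * (th φ ρ (a (j + 1)) * ad φ ρ (b (j + 1))) := rfl
      rw [e', Matrix.mul_apply, Fin.sum_univ_four, hw r 0, hw r 1, hw r 2, hw r 3, hT 0 c, hT 1 c,
        hT 2 c, hT 3 c, Matrix.of_apply]
      linear_combination (-(C c0⁻¹) * (X + C (ρ⁻¹ ^ 2)) ^ (j + 1) *
        (S r 0 * g 0 + S r 1 * g 1 + S r 2 * g 2 + S r 3 * g 3) *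
          C (m * lv φ ρ (b (j + 1)) c)) * hq -
        ((X + C (ρ⁻¹ ^ 2)) ^ (j + 1) * (S r 0 * g 0 + S r 1 * g 1 + S r 2 * g 2 + S r 3 * g 3) *
          C (m * lv φ ρ (b (j + 1)) c)) * hcc
    · show (u r0 + (X + C (ρ⁻¹ ^ 2)) ^ (j + 1) * (C c0⁻¹ * (S r0 0 * g 0 + S r0 1 * g 1 +
        S r0 2 * g 2 + S r0 3 * g 3))).eval (ρ⁻¹ ^ 2) ≠ 0
      rw [eval_add, eval_mul, eval_pow, rnku_eval_pi h.two, zero_pow (Nat.succ_ne_zero j),
        zero_mul, add_zero]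
      exact hu
    · intro s
      have h1 : (v 0 * g 0 + v 1 * g 1 + v 2 * g 2 + v 3 * g 3).eval (ρ⁻¹ ^ 2) = c0 := by
        have := hvg
        rw [eval_sub, eval_C, sub_eq_zero] at this
        exact this
      show ((v 0 * g 0 + v 1 * g 1 + v 2 * g 2 + v 3 * g 3) * e s +
        (X + C (ρ⁻¹ ^ 2)) * (v 0 * T 0 s + v 1 * T 1 s + v 2 * T 2 s +
          v 3 * T 3 s)).eval (ρ⁻¹ ^ 2) = _
      rw [eval_add, eval_mul, h1, eval_mul, rnku_eval_pi h.two, zero_mul, add_zero]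
      show c0 * (C (m * lv φ ρ (b (j + 1)) s)).eval (ρ⁻¹ ^ 2) = _
      rw [eval_C, ← mul_assoc c0]

end

theorem st_RNKU (hEV : ST_EVU) (hPAIR : ST_PAIRU) (hND : ST_NDU) : ST_RNKU := by
  intro K _ φ ρ h hρ a b ha hb j hj hr
  obtain ⟨i, rfl⟩ : ∃ i, j = i + 1 := ⟨j - 1, by omega⟩
  obtain ⟨u, v, S, k, hk, hw, ⟨r0, hu⟩, hv⟩ := rnku_word hEV hPAIR hND h hρ ha hb i hr
  have hρ0 : ρ ≠ 0 := by
    intro h0
    have h1 := hρ.mul
    rw [h0, zero_mul] at h1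
    exact zero_ne_one h1
  refine ⟨⟨u, v, S, ?_⟩, r0, 1, ?_⟩
  · ext1 r c
    rw [hw r c, Matrix.add_apply, Matrix.vecMulVec_apply, Matrix.smul_apply, smul_eq_mul]
  · rw [hw r0 1, eval_add, eval_mul, eval_mul, eval_pow, rnku_eval_pi h.two,
      zero_pow (Nat.succ_ne_zero i), zero_mul, add_zero, hv 1]
    refine mul_ne_zero hu (mul_ne_zero hk ?_)
    show ρ ≠ 0
    exact hρ0

end Pool.Agent.Helper69.GU
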